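import Pool.Agent.N890.KO.All
import Pool.Agent.R925.FD.Sec4

/-!
# Helper file (helper49): all birational sections over number fields are locally geometric

This is the theorem of Koenigsmann, proved in `Pool.Agent.N890.KO`.
-/

set_option autoImplicit false

namespace Pool.Agent.Zk49

open IsDedekindDomain NumberField Polynomial
open Pool.Agent.TH954 Pool.Agent.TH942 Pool.Agent.R925.FD

/-- all sections of `Gal(Ω/F) → G_k` are geometric over the completions of the number field `k` -/
theorem locallyGeometric {k F Ω B : Type} [Field k] [NumberField k] [Field F] [Field Ω] [Field B]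
    [Algebra k F] [Algebra F Ω] [Algebra k Ω] [Algebra k B] [IsScalarTower k F Ω]
    [IsAlgClosure F Ω] [IsAlgClosure k B] (s : GalSection k F Ω B) : LocallyGeometric s :=
  fun v => Pool.Agent.N890.KO.koenigsmann k v k F Ω B s

end Pool.Agent.Zk49
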