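import Pool.Agent.Zk49.AMO

/-! At most one unexpected curve. -/

set_option autoImplicit false

namespace Pool.Agent.Zk49.AMO

open Finset Pool.Agent.TH176.Nag Pool.Agent.TH603.Sur Pool.Agent.H932R3

/-- the ideal of a point contains the forms vanishing there -/
theorem mem_pt {L : Type*} [Field L] {d : ℕ} {a b : L} {f : MvPolynomial (Fin 3) L}
    (hf : f.IsHomogeneous d) (h0 : MvPolynomial.eval ![a, b, 1] f = 0) :
    f ∈ Ideal.span ({MvPolynomial.X 0 - MvPolynomial.C a * MvPolynomial.X 2,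
      MvPolynomial.X 1 - MvPolynomial.C b * MvPolynomial.X 2} : Set (MvPolynomial (Fin 3) L)) := by
  classical
  set I := Ideal.span ({MvPolynomial.X 0 - MvPolynomial.C a * MvPolynomial.X 2,
      MvPolynomial.X 1 - MvPolynomial.C b * MvPolynomial.X 2} : Set (MvPolynomial (Fin 3) L)) with hI
  rw [← Ideal.Quotient.eq_zero_iff_mem]
  have e0 : Ideal.Quotient.mk I (MvPolynomial.X 0) =
      Ideal.Quotient.mk I (MvPolynomial.C a * MvPolynomial.X 2) := by
    rw [Ideal.Quotient.eq]
    exact Ideal.subset_span (Or.inl rfl)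
  have e1 : Ideal.Quotient.mk I (MvPolynomial.X 1) =
      Ideal.Quotient.mk I (MvPolynomial.C b * MvPolynomial.X 2) := by
    rw [Ideal.Quotient.eq]
    exact Ideal.subset_span (Or.inr rfl)
  have key : Ideal.Quotient.mk I f =
      Ideal.Quotient.mk I (MvPolynomial.C (MvPolynomial.eval ![a, b, 1] f) *
        MvPolynomial.X 2 ^ d) := by
    conv_lhs => rw [f.as_sum]
    rw [MvPolynomial.eval_eq', map_sum, map_sum, Finset.sum_mul, map_sum]
    refine Finset.sum_congr rfl fun s hs => ?_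
    have hd : s 0 + s 1 + s 2 = d := by
      have h1 := hf (MvPolynomial.mem_support_iff.1 hs)
      rw [← h1, Finsupp.weight_apply, Finsupp.sum_fintype _ _ (by simp), Fin.sum_univ_three]
      simp
    rw [MvPolynomial.monomial_eq, Finsupp.prod_fintype _ _ (by simp), Fin.prod_univ_three]
    rw [map_mul, map_mul, map_mul, map_pow, map_pow, e0, e1, Fin.prod_univ_three]
    simp only [Matrix.cons_val_zero, Matrix.cons_val_one, Matrix.cons_val_two, Matrix.tail_cons,
      Matrix.head_cons, Matrix.cons_val, one_pow, mul_one, map_mul, map_pow]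
    rw [← hd]
    ring
  rw [key, h0, map_zero, zero_mul, map_zero]

/-- a simple general point kills at most one dimension -/
theorem finrank_le_one {L : Type*} [Field L] {n d m : ℕ} {P : Fin n → Fin 2 → L} {Q : Fin 2 → L}
    (h : ExpDim L (Fin.snoc (α := fun _ => ℕ) (fun _ : Fin n => m) 1)
      (Fin.snoc (α := fun _ => Fin 2 → L) P Q) d)
    (hd : (d + 2).choose 2 ≤ n * (m + 1).choose 2 + 1) :
    Module.finrank L
      ↥(MvPolynomial.homogeneousSubmodule (Fin 3) L d ⊓
        Submodule.restrictScalars L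
          (⨅ i : Fin n,
            (Ideal.span
              ({MvPolynomial.X 0 - MvPolynomial.C (P i 0) * MvPolynomial.X 2,
                MvPolynomial.X 1 - MvPolynomial.C (P i 1) * MvPolynomial.X 2} :
                Set (MvPolynomial (Fin 3) L))) ^ m)) ≤ 1 := by
  classical
  set V := (MvPolynomial.homogeneousSubmodule (Fin 3) L d ⊓
        Submodule.restrictScalars L
          (⨅ i : Fin n,
            (Ideal.span
              ({MvPolynomial.X 0 - MvPolynomial.C (P i 0) * MvPolynomial.X 2,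
                MvPolynomial.X 1 - MvPolynomial.C (P i 1) * MvPolynomial.X 2} :
                Set (MvPolynomial (Fin 3) L))) ^ m)) with hV
  have hfinH : Module.Finite L ↥(MvPolynomial.homogeneousSubmodule (Fin 3) L d) :=
    Module.Finite.iff_fg.2 (MvPolynomial.homogeneousSubmodule_fg _ _ d)
  unfold ExpDim at h
  set V' := (MvPolynomial.homogeneousSubmodule (Fin 3) L d ⊓
    Submodule.restrictScalars L
      (⨅ i : Fin (n + 1),
        (Ideal.span
          ({MvPolynomial.X 0 - MvPolynomial.C ((Fin.snoc (α := fun _ => Fin 2 → L) P Q : Fin (n + 1) → Fin 2 → L) i 0) * MvPolynomial.X 2,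
            MvPolynomial.X 1 - MvPolynomial.C ((Fin.snoc (α := fun _ => Fin 2 → L) P Q : Fin (n + 1) → Fin 2 → L) i 1) * MvPolynomial.X 2} :
            Set (MvPolynomial (Fin 3) L))) ^ ((Fin.snoc (α := fun _ => ℕ) (fun _ : Fin n => m) 1 : Fin (n + 1) → ℕ) i))) with hV'
  have hs : ∑ i, ((Fin.snoc (α := fun _ => ℕ) (fun _ : Fin n => m) 1 : Fin (n + 1) → ℕ) i + 1).choose 2 =
      n * (m + 1).choose 2 + 1 := by
    rw [Fin.sum_univ_castSucc]
    simp
  rw [hs, Nat.sub_eq_zero_of_le hd] at h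
  have hfin' : Module.Finite L ↥V' :=
    Submodule.finiteDimensional_of_le (S₁ := V')
      (S₂ := MvPolynomial.homogeneousSubmodule (Fin 3) L d) inf_le_left
  have hbot : V' = ⊥ := Submodule.finrank_eq_zero.1 h
  have hfin : Module.Finite L ↥V :=
    Submodule.finiteDimensional_of_le (S₁ := V)
      (S₂ := MvPolynomial.homogeneousSubmodule (Fin 3) L d) inf_le_left
  let φ : ↥V →ₗ[L] L := ((MvPolynomial.aeval (R := L) ![Q 0, Q 1, 1]).toLinearMap).comp V.subtype
  have hφ : Function.Injective φ := by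
    rw [← LinearMap.ker_eq_bot, LinearMap.ker_eq_bot']
    rintro ⟨f, hf⟩ h0
    have h1 : MvPolynomial.eval ![Q 0, Q 1, 1] f = 0 := h0
    have h2 : f ∈ V' := by
      rw [hV] at hf
      obtain ⟨g1, g2⟩ := Submodule.mem_inf.1 hf
      rw [Submodule.restrictScalars_mem, Ideal.mem_iInf] at g2
      rw [hV']
      refine Submodule.mem_inf.2 ⟨g1, ?_⟩
      rw [Submodule.restrictScalars_mem, Ideal.mem_iInf]
      intro i
      refine Fin.lastCases ?_ (fun i => ?_) i
      · rw [Fin.snoc_last, Fin.snoc_last, pow_one]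
        exact mem_pt ((MvPolynomial.mem_homogeneousSubmodule _ _).1 g1) h1
      · rw [Fin.snoc_castSucc, Fin.snoc_castSucc]
        exact g2 i
    rw [hbot, Submodule.mem_bot] at h2
    exact Subtype.ext h2
  have := LinearMap.finrank_le_finrank_of_injective hφ
  rwa [Module.finrank_self] at this

/-- the multiplicities and the simple point in a row -/
theorem emp_snoc {n m : ℕ} {S : Set (ℤ × ℤ)}
    (h : Emp (Sum.elim (fun _ : Fin n => m) (fun _ : Fin 1 => 1)) S) :
    Emp (Fin.snoc (α := fun _ => ℕ) (fun _ : Fin n => m) 1 : Fin (n + 1) → ℕ) S := by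
  refine Pool.Agent.TH978.S13.Emp_equiv finSumFinEquiv ?_ h
  rintro (i | i)
  · rw [finSumFinEquiv_apply_left]
    have : (Fin.castAdd 1 i : Fin (n + 1)) = Fin.castSucc i := rfl
    rw [this, Fin.snoc_castSucc]
    rfl
  · rw [finSumFinEquiv_apply_right]
    have h1 : i = 0 := Subsingleton.elim _ _
    subst h1
    have : (Fin.natAdd n (0 : Fin 1) : Fin (n + 1)) = Fin.last n := by
      apply Fin.ext
      simp
    rw [this, Fin.snoc_last]
    rfl

/-- independence with one more simple point -/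
theorem sur_snoc {n m d : ℕ} (h : Sur (fun _ : Fin n => m) (TZ d))
    (hd : n * (m + 1).choose 2 < (d + 2).choose 2) :
    Sur (Sum.elim (fun _ : Fin n => m) (fun _ : Fin 1 => 1)) (TZ d) := by
  classical
  have hc : cond (fun _ : Fin n => m) = n * (m + 1).choose 2 := by
    unfold Pool.Agent.TH603.Sur.cond
    rw [Finset.sum_const, Finset.card_univ, Fintype.card_fin, smul_eq_mul]
  obtain ⟨T, h1, h2, h3⟩ := h
  have h4 : T ⊆ Pool.Agent.TH641.UM.TF d := by
    have : (↑T : Set (ℤ × ℤ)) ⊆ ↑(Pool.Agent.TH641.UM.TF d) := by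
      rw [Pool.Agent.TH641.UM.coe_TF]; exact h1
    exact_mod_cast this
  obtain ⟨p, hp1, hp2⟩ : ∃ p ∈ Pool.Agent.TH641.UM.TF d, p ∉ T := by
    by_contra hcon
    push Not at hcon
    have h5 := Finset.card_le_card hcon
    rw [Pool.Agent.TH641.UM.card_TF, h2, hc] at h5
    omega
  have h6 := Emp_union h3 {p}
  refine ⟨T ∪ {p}, ?_, ?_, h6⟩
  · intro q hq
    rw [Finset.coe_union, Finset.coe_singleton] at hq
    rcases hq with hq | hq
    · exact h1 hq
    · rw [Set.mem_singleton_iff] at hq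
      subst hq
      rw [← Pool.Agent.TH641.UM.coe_TF]
      exact hp1
  · rw [Finset.card_union_of_disjoint (by simpa using hp2), h2, Finset.card_singleton]
    unfold Pool.Agent.TH603.Sur.cond
    rw [Fintype.sum_sum_type]
    simp

theorem sur_snoc' {n m : ℕ} {S : Set (ℤ × ℤ)}
    (h : Sur (Sum.elim (fun _ : Fin n => m) (fun _ : Fin 1 => 1)) S) :
    Sur (Fin.snoc (α := fun _ => ℕ) (fun _ : Fin n => m) 1 : Fin (n + 1) → ℕ) S := by
  refine Pool.Agent.TH978.S13.Sur_equiv finSumFinEquiv ?_ h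
  rintro (i | i)
  · rw [finSumFinEquiv_apply_left]
    have : (Fin.castAdd 1 i : Fin (n + 1)) = Fin.castSucc i := rfl
    rw [this, Fin.snoc_castSucc]
    rfl
  · rw [finSumFinEquiv_apply_right]
    have h1 : i = 0 := Subsingleton.elim _ _
    subst h1
    have : (Fin.natAdd n (0 : Fin 1) : Fin (n + 1)) = Fin.last n := by
      apply Fin.ext
      simp
    rw [this, Fin.snoc_last]
    rfl

/-- **`n` points of multiplicity `m` and one simple point**: all degrees -/
theorem quasi {n : ℕ} (hn : n = 11 ∨ n = 15 ∨ n = 27) (m : ℕ) :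
    ∃ F : MvPolynomial (Fin (n + 1) × Fin 2) ℚ, F ≠ 0 ∧ ∀ {L : Type} [Field L] [CharZero L]
      (P : Fin (n + 1) → Fin 2 → L),
      MvPolynomial.aeval (fun ij : Fin (n + 1) × Fin 2 => P ij.1 ij.2) F ≠ 0 →
      ∀ d : ℕ, (n ≠ 27 ∨ 3 ∣ d) →
        ExpDim L (Fin.snoc (α := fun _ => ℕ) (fun _ : Fin n => m) 1) P d := by
  refine Pool.Agent.TH864.SX.expDim_of_or' fun d hd => ?_
  rcases dich1 hn m d hd with h | h
  · exact Or.inl (emp_snoc h)
  · rcases Nat.lt_or_ge (n * (m + 1).choose 2) ((d + 2).choose 2) with h1 | h1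
    · exact Or.inr (sur_snoc' (sur_snoc h h1))
    · exact Or.inl (emp_snoc (emp_of_le hn m d hd (by omega)))

/-- evaluation at a rational last point -/
theorem spec_last {n : ℕ} {F : MvPolynomial (Fin (n + 1) × Fin 2) ℚ} (hF : F ≠ 0) :
    ∃ (Q : Fin 2 → ℚ) (G : MvPolynomial (Fin n × Fin 2) ℚ), G ≠ 0 ∧
      ∀ {L : Type} [Field L] [CharZero L] (P : Fin n → Fin 2 → L),
        MvPolynomial.aeval (fun ij : Fin n × Fin 2 => P ij.1 ij.2) G =
          MvPolynomial.aeval (fun ij : Fin (n + 1) × Fin 2 =>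
            (Fin.snoc (α := fun _ => Fin 2 → L) P (fun j => ((Q j : ℚ) : L)) :
              Fin (n + 1) → Fin 2 → L) ij.1 ij.2) F := by
  classical
  obtain ⟨a, ha⟩ : ∃ a : Fin (n + 1) × Fin 2 → ℚ, MvPolynomial.eval a F ≠ 0 := by
    by_contra hcon
    push Not at hcon
    exact hF (MvPolynomial.funext fun a => by rw [hcon a, map_zero])
  let Q : Fin 2 → ℚ := fun j => a (Fin.last n, j)
  let σ : Fin (n + 1) × Fin 2 → MvPolynomial (Fin n × Fin 2) ℚ := fun ij =>
    (Fin.snoc (α := fun _ => Fin 2 → MvPolynomial (Fin n × Fin 2) ℚ)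
      (fun i j => MvPolynomial.X (i, j)) (fun j => MvPolynomial.C (Q j)) :
      Fin (n + 1) → Fin 2 → MvPolynomial (Fin n × Fin 2) ℚ) ij.1 ij.2
  have hσ : ∀ {L : Type} [Field L] [CharZero L] (P : Fin n → Fin 2 → L),
        MvPolynomial.aeval (fun ij : Fin n × Fin 2 => P ij.1 ij.2) (MvPolynomial.aeval σ F) =
          MvPolynomial.aeval (fun ij : Fin (n + 1) × Fin 2 =>
            (Fin.snoc (α := fun _ => Fin 2 → L) P (fun j => ((Q j : ℚ) : L)) :
              Fin (n + 1) → Fin 2 → L) ij.1 ij.2) F := by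
    intro L _ _ P
    rw [← AlgHom.comp_apply]
    congr 1
    apply MvPolynomial.algHom_ext
    rintro ⟨i, j⟩
    rw [AlgHom.comp_apply, MvPolynomial.aeval_X, MvPolynomial.aeval_X]
    refine Fin.lastCases ?_ (fun i => ?_) i
    · simp only [σ, Fin.snoc_last]
      rw [MvPolynomial.aeval_C, eq_ratCast]
    · simp only [σ, Fin.snoc_castSucc]
      rw [MvPolynomial.aeval_X]
  refine ⟨Q, MvPolynomial.aeval σ F, ?_, hσ⟩
  intro h0
  have h1 := hσ (L := ℚ) (fun i j => a (Fin.castSucc i, j))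
  rw [h0, map_zero] at h1
  apply ha
  have e : (fun ij : Fin (n + 1) × Fin 2 =>
            (Fin.snoc (α := fun _ => Fin 2 → ℚ) (fun i j => a (Fin.castSucc i, j))
              (fun j => ((Q j : ℚ) : ℚ)) :
              Fin (n + 1) → Fin 2 → ℚ) ij.1 ij.2) = a := by
    funext ij
    obtain ⟨i, j⟩ := ij
    refine Fin.lastCases ?_ (fun i => ?_) i
    · simp only [Fin.snoc_last, Q]
    · simp only [Fin.snoc_castSucc]
  simp only [Rat.cast_id] at h1
  have h5 : ∀ r : ℚ →+* ℚ, MvPolynomial.eval₂ r a F = MvPolynomial.eval a F := fun r => by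
    rw [Subsingleton.elim r (RingHom.id ℚ)]
    exact MvPolynomial.eval₂_id _
  rw [e, MvPolynomial.aeval_def, h5] at h1
  exact h1.symm

/-- **at most one unexpected curve** -/
theorem main {n : ℕ} (hn : n = 11 ∨ n = 15 ∨ n = 27) (m : ℕ) :
    ∃ F : MvPolynomial (Fin n × Fin 2) ℚ, F ≠ 0 ∧ ∀ {L : Type} [Field L] [CharZero L]
      (P : Fin n → Fin 2 → L), MvPolynomial.aeval (fun ij : Fin n × Fin 2 => P ij.1 ij.2) F ≠ 0 →
      ∀ d : ℕ, (n ≠ 27 ∨ 3 ∣ d) →
        (n * (m + 1).choose 2 < (d + 2).choose 2 → ExpDim L (fun _ => m) P d) ∧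
        ((d + 2).choose 2 ≤ n * (m + 1).choose 2 → Module.finrank L
          ↥(MvPolynomial.homogeneousSubmodule (Fin 3) L d ⊓
            Submodule.restrictScalars L
              (⨅ i : Fin n,
                (Ideal.span
                  ({MvPolynomial.X 0 - MvPolynomial.C (P i 0) * MvPolynomial.X 2,
                    MvPolynomial.X 1 - MvPolynomial.C (P i 1) * MvPolynomial.X 2} :
                    Set (MvPolynomial (Fin 3) L))) ^ m)) ≤ 1) := by
  obtain ⟨F1, hF1, h1⟩ := Pool.Agent.TH864.SX.expDim_of_or' (n := n) (w := fun _ => m)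
    (G := fun d => (n ≠ 27 ∨ 3 ∣ d) ∧ n * (m + 1).choose 2 < (d + 2).choose 2)
    (fun d hd => Or.inr (sur_of_pos hn m d hd.1 hd.2))
  obtain ⟨F2, hF2, h2⟩ := quasi hn m
  obtain ⟨Q, G, hG, h3⟩ := spec_last hF2
  refine ⟨F1 * G, mul_ne_zero hF1 hG, fun {L} _ _ P hP d hd => ?_⟩
  rw [map_mul] at hP
  refine ⟨fun h => h1 P (left_ne_zero_of_mul hP) d ⟨hd, h⟩, fun h => ?_⟩
  have h4 := right_ne_zero_of_mul hP
  rw [h3 P] at h4
  exact finrank_le_one (h2 _ h4 d hd) (by omega)

end Pool.Agent.Zk49.AMO
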