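import Pool.Agent.N388.EFW.Fam

/-! Blocks without the apex, and one simple point. -/

set_option autoImplicit false

namespace Pool.Agent.Zk49.AMO

open Finset Pool.Agent.TH176.Nag Pool.Agent.TH603.Sur Pool.Agent.TH603.Cut Pool.Agent.H932R3
open Pool.Agent.TH864.SX (Fb Fa Slp Blk)
open Pool.Agent.TH469.SX (Bo Fl cut_E Fb_eq)
open Pool.Agent.TH978.S13 (Sc Sc_pos Sc_finite Emp_shift Sur_shift Emp_plane9 Sur_plane9 Emp_equiv
  Sur_equiv KN slpN sqN)
open Pool.Agent.TH864.DP (or_equiv)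

/-- the open sector from the flattened block -/
theorem Emp_sc {ι : Type} {w : ι → ℕ} {M q : ℕ} {K : ℝ} {D : ℕ} (h : Slp M q K)
    (hE : Emp w (Fl q K (K * D))) : Emp w (Sc (K - M) K D) := by
  have hM : (0 : ℝ) < M := by exact_mod_cast h.hM
  have hK := h.K0
  have hKM : 0 < K - M := by linarith [h.hMK]
  have hq : (0 : ℝ) < q := by exact_mod_cast h.hq
  refine Emp_flat (S' := Fl q K (K * D)) 1 0 1 0 (by norm_num) ?_ hE
  rintro ⟨t, j⟩ T k ⟨g1, g2, -⟩ hp hk
  have h0 := Sc_pos (by linarith) hp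
  obtain ⟨-, -, g3⟩ := hp
  simp only at g1 g2 g3 h0
  have e : ((1 * t + 0 * j, (k : ℤ)) : ℤ × ℤ) = (t, (k : ℤ)) := by simp
  simp only
  rw [e]
  have hkR : (k : ℝ) ≤ T := by exact_mod_cast hk
  have hk0 : (0 : ℝ) ≤ k := Nat.cast_nonneg k
  have hj0 : (0 : ℝ) ≤ j := by exact_mod_cast g1
  push_cast at g2 g3 h0
  simp only [zero_mul, sub_zero, one_mul] at g2 g3 h0
  have g2' := h.low.1 g2.le
  have g3' := h.up.1 g3.le
  have hT : (T : ℝ) ≤ q * t := by linarith
  have ht0 : (0 : ℝ) < t := by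
    have h5 : 0 < (K - M) * ((D : ℝ) - (j + T)) := mul_pos hKM (by linarith)
    have h6 : (K - M) * ((D : ℝ) - (j + T)) ≤ (K - M) * ((D : ℝ) - j) :=
      mul_le_mul_of_nonneg_left (by linarith) hKM.le
    linarith
  have ht : 0 < t := by exact_mod_cast ht0
  refine ⟨by simp only; omega, by simp, ?_, ?_⟩
  · simp only
    have h5 : (k : ℝ) ≤ q * t := by linarith
    have h6 : (k : ℤ) ≤ q * t := by exact_mod_cast h5
    rcases h6.lt_or_eq with h7 | h7
    · exact h7
    · exfalso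
      have h8 : (k : ℝ) = q * t := by exact_mod_cast h7
      refine h.ne (d := 3 * D) (t := t) (z := j) (by omega) ?_
      push_cast
      linarith
  · simp only
    have h6 : K * (k : ℝ) ≤ K * (j + T) := mul_le_mul_of_nonneg_left (by linarith) hK.le
    push_cast
    linarith

/-- adding a sector, no apex -/
theorem Emp_add0 {ι κ : Type} [Finite ι] [Finite κ] {w : ι → ℕ} {v : κ → ℕ} {x y z : ℝ} {h : ℕ}
    (hxy : x < y) (hyz : y < z) (hy : Irrational y)
    (h1 : Emp w (Sc x y h)) (h2 : Emp v (Sc y z h)) :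
    Emp (Sum.elim w v) (Sc x z h) := by
  refine (cut_E (S := Sc x y h) (T := Sc y z h)
    (Sc_finite hxy h) (Sc_finite hyz h) (-y) ?_ h1 h2).mono ?_
  · rintro p ⟨-, -, g3⟩ p' ⟨-, g2, -⟩
    linarith
  · rintro p hp
    have h0 := Sc_pos (hxy.trans hyz) hp
    obtain ⟨g1, g2, g3⟩ := hp
    rcases lt_trichotomy (p.1 : ℝ) (y * ((h : ℝ) - p.2)) with g | g | g
    · exact Or.inl ⟨g1, g2, g⟩
    · exfalso
      apply hy
      refine ⟨(p.1 : ℚ) / ((h : ℚ) - p.2), ?_⟩
      push_cast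
      rw [div_eq_iff h0.ne']
      exact g
    · exact Or.inr ⟨g1, g, g3⟩

/-- copies of a sector, no apex -/
theorem Emp_copies0 {b m h M : ℕ} {x : ℝ} (hM : 1 ≤ M) (hx : Irrational x)
    (hE : Emp (fun _ : Fin b => m) (Sc x (x + M) h)) (r : ℕ) :
    Emp (fun _ : Fin ((r + 1) * b) => m) (Sc x (x + ((r + 1) * M : ℕ)) h) := by
  have hMR : (1 : ℝ) ≤ M := by exact_mod_cast hM
  induction r with
  | zero =>
    have e1 : x + (((0 + 1) * M : ℕ) : ℝ) = x + M := by push_cast; ring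
    rw [e1]
    exact Emp_equiv (finCongr (by ring)) (fun _ => rfl) hE
  | succ r ih =>
    have h2 : Emp (fun _ : Fin b => m) (Sc (x + (((r + 1) * M : ℕ) : ℤ)) (x + M + (((r + 1) * M : ℕ) : ℤ)) h) :=
      Emp_shift _ hE
    have e1 : x + (((r + 1 + 1) * M : ℕ) : ℝ) = x + M + ((((r + 1) * M : ℕ) : ℤ) : ℝ) := by
      push_cast; ring
    have e2 : x + (((r + 1) * M : ℕ) : ℝ) = x + ((((r + 1) * M : ℕ) : ℤ) : ℝ) := by
      push_cast; ring
    rw [e1]
    rw [e2] at ih
    have h0 : (0 : ℝ) < ((((r + 1) * M : ℕ) : ℤ) : ℝ) := by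
      have : 0 < (r + 1) * M := by positivity
      exact_mod_cast this
    have key := Emp_add0 (x := x) (y := x + ((((r + 1) * M : ℕ) : ℤ) : ℝ))
      (z := x + M + ((((r + 1) * M : ℕ) : ℤ) : ℝ)) (by linarith) (by linarith) (hx.add_intCast _) ih h2
    refine Emp_equiv (finSumFinEquiv.trans (finCongr (by ring))) ?_ key
    rintro (i | i) <;> rfl

/-- the apex costs one simple point -/
theorem Emp_one_add {ι : Type} [Finite ι] {w : ι → ℕ} {x y : ℝ} {h : ℕ} (hxy : x < y)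
    (hE : Emp w (Sc x y h)) :
    Emp (Sum.elim w (fun _ : Fin 1 => 1)) (Sc x y h ∪ {((0, (h : ℤ)) : ℤ × ℤ)}) := by
  classical
  have hf := Sc_finite hxy h
  have h1 : Emp w (↑hf.toFinset : Set (ℤ × ℤ)) := by rw [hf.coe_toFinset]; exact hE
  have h2 := Emp_union h1 {((0, (h : ℤ)) : ℤ × ℤ)}
  rw [coe_union, hf.coe_toFinset, coe_singleton] at h2
  exact h2

/-- **the dichotomy in degrees divisible by three** -/
theorem dich3 {M r n : ℕ} (hMr : (r + 1) * M = 9) (hn : (r + 1) * (M + 2) = n) (D m : ℕ) :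
    Emp (Sum.elim (fun _ : Fin n => m) (fun _ : Fin 1 => 1)) (TZ (3 * D)) ∨
      Sur (fun _ : Fin n => m) (TZ (3 * D)) := by
  have hM : 1 ≤ M := Nat.pos_of_ne_zero (by rintro rfl; simp at hMr)
  obtain ⟨hS, hK1, hK2⟩ := slpN hM
  have hK0 := hS.K0
  have hK : ((2 : ℕ) : ℝ) * (KN M * (KN M - M)) = M := hS.eq
  obtain ⟨x, hx⟩ : ∃ x : ℝ, x = KN M - M := ⟨_, rfl⟩
  have hirr : Irrational x := by
    rw [hx]
    exact hS.irr.sub_natCast M
  have hx0 : 0 < x := by rw [hx]; linarith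
  have hx3 : x < 3 := by rw [hx]; linarith
  have hxM : x + M = KN M := by rw [hx]; ring
  have hMR : (1 : ℝ) ≤ M := by exact_mod_cast hM
  have hcard : Fintype.card (Fin (M + 2)) = M + 2 * 1 := by simp
  have h9 : x + (((r + 1) * M : ℕ) : ℝ) = x + 9 := by rw [hMr]; push_cast; ring
  subst hn
  rcases le_or_gt ((2 : ℕ) * (m : ℝ) * (KN M + (1 : ℕ)) + 1) ((2 : ℕ) * (KN M * D)) with h1 | h1
  · right
    have h2 : Sur (fun _ : Fin (M + 2) => m) (Fl 2 (KN M) (KN M * D)) :=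
      Pool.Agent.TH469.SX.Sur_blk (p := 1) rfl hK0 hK hcard h1
    have h3 : Sur (fun _ : Fin (M + 2) => m) (Bo M (KN M) (3 * D)) := by
      apply Pool.Agent.TH469.SX.Sur_bo hS
      rw [Fb_eq]
      have e : KN M * ((3 * D : ℕ) : ℝ) / 3 = KN M * D := by push_cast; ring
      rw [e]
      exact h2
    have h4 : Sur (fun _ : Fin (M + 2) => m) (Sc x (x + M) D) := by
      refine h3.mono ?_
      rintro p ⟨g1, g2, g3⟩
      have e : ((3 * D : ℕ) : ℝ) / 3 = D := by push_cast; ring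
      rw [e] at g2 g3
      rw [hxM, hx]
      exact ⟨g1, g2, g3⟩
    have h5 := Pool.Agent.TH978.S13.Sur_blocks hM h4 r
    rw [h9] at h5
    exact Sur_plane9 hirr hx0 hx3 h5
  · left
    have h2 : Emp (fun _ : Fin (M + 2) => m) (Fl 2 (KN M) (KN M * D)) :=
      Pool.Agent.TH469.SX.Emp_blk (p := 1) rfl hK0 hK hcard h1
    have h3 := Emp_sc hS h2
    rw [← hx, ← hxM] at h3
    have h5 := Emp_copies0 hM hirr h3 r
    rw [h9] at h5
    exact Emp_plane9 hirr hx0 hx3 (Emp_one_add (by linarith) h5)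

/-- **the dichotomy in all degrees** -/
theorem dich1 {n : ℕ} (hn : n = 11 ∨ n = 15 ∨ n = 27) (m d : ℕ) (hd : n ≠ 27 ∨ 3 ∣ d) :
    Emp (Sum.elim (fun _ : Fin n => m) (fun _ : Fin 1 => 1)) (TZ d) ∨
      Sur (fun _ : Fin n => m) (TZ d) := by
  by_cases h3 : 3 ∣ d
  · obtain ⟨D, rfl⟩ := h3
    rcases hn with rfl | rfl | rfl
    · exact dich3 (M := 9) (r := 0) (by norm_num) (by norm_num) D m
    · exact dich3 (M := 3) (r := 2) (by norm_num) (by norm_num) D m
    · exact dich3 (M := 1) (r := 8) (by norm_num) (by norm_num) D m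
  · have key : Emp (fun _ : Fin n => m) (TZ d) ∨ Sur (fun _ : Fin n => m) (TZ d) := by
      rcases hn with rfl | rfl | rfl
      · exact Pool.Agent.TH864.SX.dich' Pool.Agent.TH864.SX.num11 Pool.Agent.TH864.SX.K11_lt m d
          (Or.inl h3)
      · exact Pool.Agent.TH469.SX.dich_three (b := 5) Pool.Agent.TH469.SX.slp15
          Pool.Agent.TH469.SX.K15_lt (Pool.Agent.TH469.SX.dich5 m d (Or.inl h3))
      · rcases hd with hd | hd
        · exact absurd rfl hd
        · exact absurd hd h3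
    rcases key with h | h
    · left
      exact Emp_emb Sum.inl Sum.inl_injective (fun i => le_rfl) h
    · exact Or.inr h

/-- independence whenever the expected dimension is positive -/
theorem sur_of_pos {n : ℕ} (hn : n = 11 ∨ n = 15 ∨ n = 27) (m d : ℕ) (hd : n ≠ 27 ∨ 3 ∣ d)
    (h : n * (m + 1).choose 2 < (d + 2).choose 2) : Sur (fun _ : Fin n => m) (TZ d) := by
  have hc : cond (fun _ : Fin n => m) = n * (m + 1).choose 2 := by
    unfold Pool.Agent.TH603.Sur.cond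
    rw [Finset.sum_const, Finset.card_univ, Fintype.card_fin, smul_eq_mul]
  rcases dich1 hn m d hd with h1 | h1
  · exact Pool.Agent.TH641.UM.Sur_of_ones h1 (by rw [hc]; omega)
  · exact h1

/-- emptiness with one simple point when the expected dimension is at most one -/
theorem emp_of_le {n : ℕ} (hn : n = 11 ∨ n = 15 ∨ n = 27) (m d : ℕ) (hd : n ≠ 27 ∨ 3 ∣ d)
    (h : (d + 2).choose 2 ≤ n * (m + 1).choose 2 + 1) :
    Emp (Sum.elim (fun _ : Fin n => m) (fun _ : Fin 1 => 1)) (TZ d) := by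
  have hc : cond (fun _ : Fin n => m) = n * (m + 1).choose 2 := by
    unfold Pool.Agent.TH603.Sur.cond
    rw [Finset.sum_const, Finset.card_univ, Fintype.card_fin, smul_eq_mul]
  rcases dich1 hn m d hd with h1 | h1
  · exact h1
  · exact Pool.Agent.TH641.UM.Emp_ones h1 (by rw [hc]; exact h)

end Pool.Agent.Zk49.AMO
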