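import Pool.Agent.Zk49.Koe
import Pool.Agent.Results.MP_8312c9_nt.RandomOrbits

/-!
# Helper file (helper49): the birational section conjecture for twists of cyclic coverings, for arbitrary
# sections

The starting results for the twists of cyclic coverings (helper925, helper676) are about the sections which
are geometric over the completions; by the theorem of Koenigsmann, proved in `Pool.Agent.N890.KO`, these
are all sections.
-/

set_option autoImplicit false

namespace Pool.Agent.Zk49

open Polynomial Pool.Agent.R925.FD Pool.Agent.TH954 Pool.Agent.TH942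
open Pool.Agent.Results.MP_8312c9_nt.SectionsOfTwistedCoverings (Admissible)
open Pool.Agent.Results.MP_8312c9_nt.RandomOrbits (HasEllipticFactor adm_ex)

/-- Let `F` be an extension of `ℚ` with elements `z`, `x`, `y`, `b y ^ n = ∏ g k (z)`,
`a x ^ m = h (z)`, where `z` is transcendental, that is, the function field of the curve `C a` or of
a variety with a dominant map to it, and let `Ω` be an algebraic closure of `F`. EVERY section of
`Gal(Ω/F) → G_ℚ` has a persistent class. -/
def AllPersistent {K : Type} [Fintype K] (n m : ℕ) (b a : ℤ) (g : K → ℤ[X]) (h : ℤ[X]) : Prop :=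
  ∀ (F Ω B : Type) [Field F] [Field Ω] [Field B] [Algebra ℚ F] [Algebra F Ω] [Algebra ℚ Ω]
    [Algebra ℚ B] [IsScalarTower ℚ F Ω] [IsAlgClosure F Ω] [IsAlgClosure ℚ B] (z x y : F),
    Transcendental ℚ z → (b : F) * y ^ n = ∏ k, aeval z (g k) → (a : F) * x ^ m = aeval z h →
    ∀ s : GalSection ℚ F Ω B,
      ∃ δ : K → ℚ, IsClass n b δ ∧ SectionClass n g s z δ ∧ Persistent n g h δ

/-- Let `F` be an extension of `ℚ` with elements `z`, `x`, `y`, `b y ^ n = ∏ g k (z)`,
`a x ^ m = h (z)`, where `z` is transcendental and `F` is algebraic over `ℚ(z)`, that is, the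
function field of the curve `C a` or of a covering of it, and let `Ω` be an algebraic closure of `F`.
EVERY section of `Gal(Ω/F) → G_ℚ` arises from exactly one rational point, and `x = 0` there. -/
def AllFromZeros {K : Type} [Fintype K] (n m : ℕ) (b a : ℤ) (g : K → ℤ[X]) (h : ℤ[X]) : Prop :=
  ∀ (F Ω B : Type) [Field F] [Field Ω] [Field B] [Algebra ℚ F] [Algebra F Ω] [Algebra ℚ Ω]
    [Algebra ℚ B] [IsScalarTower ℚ F Ω] [IsAlgClosure F Ω] [IsAlgClosure ℚ B] (z x y : F),
    Transcendental ℚ z → Algebra.IsAlgebraic (IntermediateField.adjoin ℚ {z}) F →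
    (b : F) * y ^ n = ∏ k, aeval z (g k) → (a : F) * x ^ m = aeval z h →
    ∀ s : GalSection ℚ F Ω B,
      (∃! O : ValuationSubring F, s.ArisesFrom O) ∧
        ∀ O : ValuationSubring F, s.ArisesFrom O → x⁻¹ ∉ O

/-- There are no sections of `Gal(Ω/F) → G_ℚ`, for all extensions `F` of the function field of `C a`. -/
def NoSectionsAtAll {K : Type} [Fintype K] (n m : ℕ) (b a : ℤ) (g : K → ℤ[X]) (h : ℤ[X]) : Prop :=
  ∀ (F Ω B : Type) [Field F] [Field Ω] [Field B] [Algebra ℚ F] [Algebra F Ω] [Algebra ℚ Ω]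
    [Algebra ℚ B] [IsScalarTower ℚ F Ω] [IsAlgClosure F Ω] [IsAlgClosure ℚ B] (z x y : F),
    Transcendental ℚ z → (b : F) * y ^ n = ∏ k, aeval z (g k) → (a : F) * x ^ m = aeval z h →
    IsEmpty (GalSection ℚ F Ω B)

/-- All sections for the curves `C a`, `m ≥ 2`, `m ∣ deg h`, have persistent classes, and they come from
exactly one rational point, with `x = 0`, if the persistent classes are those of the integral zeros of `h`
and there is an elliptic factor. -/
def Good {r : ℕ} (n : ℕ) (b : ℤ) (g : Fin r → ℤ[X]) (h : ℤ[X]) (a : ℤ) : Prop :=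
  (∀ m : ℕ, 2 ≤ m → m ∣ h.natDegree → AllPersistent n m b a g h) ∧
  (n = 2 → OnlyZeros b g h → HasEllipticFactor g h →
    ∀ m : ℕ, 2 ≤ m → m ∣ h.natDegree → AllFromZeros 2 m b a g h)

theorem good_of_good {r n : ℕ} {b : ℤ} {g : Fin r → ℤ[X]} {h : ℤ[X]} {a : ℤ}
    (hg : Pool.Agent.Results.MP_8312c9_nt.RandomOrbits.Good n b g h a) : Good n b g h a := by
  refine ⟨fun m hm hmh => ?_, fun e1 e2 e3 m hm hmh => ?_⟩
  · intro F Ω B _ _ _ _ _ _ _ _ _ _ z x y hz hy hx s
    exact hg.1 m hm hmh F Ω B z x y hz hy hx s (locallyGeometric s)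
  · intro F Ω B _ _ _ _ _ _ _ _ _ _ z x y hz hF hy hx s
    exact hg.2 e1 e2 e3 m hm hmh F Ω B z x y hz hF hy hx s (locallyGeometric s)

/-- there are no sections for the curves of the example if `a` is good -/
theorem noSections_of_good {a : ℤ} (hgood : Good 2 1 exg exh a) (m : ℕ) (hm : 2 ≤ m)
    (hmh : m ∣ exh.natDegree) : NoSectionsAtAll 2 m 1 a exg exh := by
  intro F Ω B _ _ _ _ _ _ _ _ _ _ z x y hz hy hx
  refine ⟨fun s => ?_⟩
  obtain ⟨δ, h3, -, h4⟩ := hgood.1 m hm hmh F Ω B z x y hz hy hx s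
  exact ex_not_persistent δ (h3.1 0) h4

end Pool.Agent.Zk49
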