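import Pool.Agent.N546.ZT.Seq
import Pool.Agent.N676.OR.Pro

/-!
# Helper file (helper49): from `Crit` (N546.ZT) to `Hit` and `Big` (N676.OR)
-/

set_option autoImplicit false

namespace Pool.Agent.Zk49

open Finset Filter Topology MeasureTheory
open Pool.Agent.N676.OR (Hit Big)
open Pool.Agent.N546.ZT (Crit)

/-- a set of primes with unbounded sums of reciprocals is big -/
lemma big_of_unbounded {Q : Set ℕ} (h1 : ∀ p ∈ Q, p.Prime)
    (h2 : ∀ B : ℝ, ∃ y : ℕ, B ≤ ∑ p ∈ range y, Set.indicator Q (fun p : ℕ => 1 / (p : ℝ)) p) : Big Q := by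
  intro hs
  have he : {p : ℕ | p.Prime ∧ p ∈ Q} = Q := by
    ext p
    exact ⟨fun h => h.2, fun h => ⟨h1 p h, h⟩⟩
  rw [he] at hs
  obtain ⟨y, hy⟩ := h2 (∑' p : ℕ, Set.indicator Q (fun p : ℕ => 1 / (p : ℝ)) p + 1)
  have h3 := hs.sum_le_tsum (range y) (fun p _ => Set.indicator_nonneg (fun q _ => by positivity) p)
  linarith

/-- finitely many big sets for a property with `Crit` -/
lemma hits_of_crit {P : ℤ → Prop} (h : Crit P) : ∃ PP : Set (Set ℕ), PP.Finite ∧ (∀ Q ∈ PP, Big Q) ∧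
    ∀ a : ℤ, (∀ Q ∈ PP, Hit Q a) → P a := by
  obtain ⟨r, Q, h1, h2, h3⟩ := h
  refine ⟨Set.range Q, Set.finite_range Q, ?_, fun a ha => h3 a fun i => ?_⟩
  · rintro _ ⟨i, rfl⟩
    exact big_of_unbounded (h1 i) (h2 i)
  · obtain ⟨p, hp, -, hpa, hpa2⟩ := ha (Q i) ⟨i, rfl⟩
    exact ⟨p, hp, hpa, hpa2⟩

end Pool.Agent.Zk49
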