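import Pool.Agent.N676.OR.Diag
import Pool.Agent.N24.RW.All

/-!
# Helper file (helper49): random orbits and countably many pronull sets

One set of times of density zero for all vectors `v ≠ 0` and countably many pronull sets.
-/

set_option autoImplicit false

namespace Pool.Agent.Zk49

open Filter Topology MeasureTheory Pool.Agent.N24.RW
open Pool.Agent.N676.OR (DensityZero diag dz_empty rw_main an_dz)

theorem orbits {ι : Type} [Fintype ι] [DecidableEq ι] (hι : 2 ≤ Fintype.card ι) (W : Walk ι)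
    {κ : Type} [Countable κ] (B : κ → Set (ι → ℤ)) (hB : ∀ x, ProNull (B x)) :
    ∀ᵐ w ∂(words W.m), ∃ E : Set ℕ, DensityZero E ∧ ∀ v : ι → ℤ, v ≠ 0 → ∀ x : κ,
      {t : ℕ | t ∉ E ∧ orb W v w t ∈ B x}.Finite := by
  classical
  have hall : ∀ᵐ w ∂(words W.m), ∀ x : κ × {v : ι → ℤ // v ≠ 0},
      DensityZero {t : ℕ | orb W x.2.1 w t ∈ B x.1} := by
    rw [ae_all_iff]
    intro x
    exact an_dz (rw_main ι hι W x.2.1 x.2.2 _ (hB x.1))
  filter_upwards [hall] with w hw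
  by_cases hne : Nonempty (κ × {v : ι → ℤ // v ≠ 0})
  · obtain ⟨f, hf⟩ := exists_surjective_nat (κ × {v : ι → ℤ // v ≠ 0})
    obtain ⟨E, hE1, hE2⟩ := diag (fun k => {t : ℕ | orb W (f k).2.1 w t ∈ B (f k).1})
      (fun k => hw (f k))
    refine ⟨E, hE1, fun v hv x => ?_⟩
    obtain ⟨k, hk⟩ := hf (x, ⟨v, hv⟩)
    have h1 := hE2 k
    rw [hk] at h1
    refine h1.subset ?_
    rintro t ⟨ht1, ht2⟩
    exact ⟨ht2, ht1⟩
  · refine ⟨∅, dz_empty, fun v hv x => ?_⟩
    exact absurd ⟨(x, ⟨v, hv⟩)⟩ hne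

end Pool.Agent.Zk49
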