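import Pool.Agent.R482.ST.Radial

/-!
# Helper file (helper49): thin sets of integral vectors and radial starshaped maps

The theorem `radial_windows` of helper482 for countably many sets of integral vectors with power-saving
bounds for the numbers of their members in boxes.
-/

set_option autoImplicit false

namespace Pool.Agent.Zk49

open Filter MeasureTheory
open Pool.Agent.R482.ST (Star Conv rad radial_windows)

/-- thin sets of integral vectors and radial starshaped maps -/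
theorem radial {ι : Type} [Fintype ι] [Nonempty ι] {κ : Type} [Countable κ] (B : κ → Set (ι → ℤ))
    {γ : ℝ} (hγ : γ ≤ Fintype.card ι)
    (hB : ∀ x, ∀ ε : ℝ, 0 < ε → ∃ H₀ : ℕ, ∀ H : ℕ, H₀ ≤ H →
      (({v : ι → ℤ | (∀ i, |v i| ≤ H) ∧ v ∈ B x}.ncard : ℕ) : ℝ) ≤
        (H : ℝ) ^ ((Fintype.card ι : ℝ) - γ + ε))
    {f : ℕ → ℝ → ℝ} {a τ θ : ℝ} (ha : 0 ≤ a) (hf : Star a f) (hv : Conv a f τ) (hτ : 0 ≤ τ)
    (hθ : θ < 1) :
    ∃ E : Set (ι → ℝ), dimH E ≤ ENNReal.ofReal (((Fintype.card ι : ℝ) - γ + τ) / (1 - θ)) ∧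
      ((Fintype.card ι : ℝ) * θ + τ < γ → volume E = 0) ∧
      ∀ u : ι → ℝ, a < ‖u‖ → u ∉ E → ∀ x : κ, ∀ c : ℝ, ∃ n₀ : ℕ, ∀ n : ℕ, n₀ ≤ n →
        ∀ v : ι → ℤ, (∀ i, |(v i : ℝ) - f n ‖u‖ / ‖u‖ * u i| ≤ c * (f n ‖u‖) ^ θ) → v ∉ B x := by
  classical
  have hs : (0 : ℝ) ≤ (Fintype.card ι : ℝ) - γ := by linarith
  let V : (ι → ℤ) → (ι → ℝ) := fun v i => (v i : ℝ)
  have hnorm : ∀ (v : ι → ℤ) (X : ℝ), ‖V v‖ ≤ X ↔ ∀ i, |(v i : ℝ)| ≤ X := by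
    intro v X
    rw [pi_norm_le_iff_of_nonempty]
    rfl
  have hfin : ∀ H : ℕ, {v : ι → ℤ | ∀ i, |v i| ≤ H}.Finite := by
    intro H
    have : {c : ι → ℤ | ∀ j, c j ∈ Set.Icc (-(H : ℤ)) (H : ℤ)}.Finite :=
      Set.Finite.pi' fun _ => Set.finite_Icc _ _
    exact this.subset fun c hc j => ⟨(abs_le.1 (hc j)).1, (abs_le.1 (hc j)).2⟩
  have hkey : ∀ x : κ, ∃ E : Set (ι → ℝ),
      dimH E ≤ ENNReal.ofReal (((Fintype.card ι : ℝ) - γ + τ) / (1 - θ)) ∧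
      ∀ u : ι → ℝ, a < ‖u‖ → u ∉ E → ∀ c : ℝ, ∃ n₀ : ℕ, ∀ n : ℕ, n₀ ≤ n → ∀ v ∈ B x,
        c * (f n ‖u‖) ^ θ < ‖V v - rad (f n) u‖ := by
    intro x
    refine radial_windows (B x) V ha hf hv hs hτ hθ fun ε hε => ?_
    obtain ⟨H₀, hH₀⟩ := hB x ε hε
    refine ⟨max 1 (({v : ι → ℤ | ∀ i, |v i| ≤ (H₀ : ℕ)}.ncard : ℕ) : ℝ), fun X hX => ?_⟩
    have hX0 : 0 < X := by linarith
    have hsub : {v | v ∈ B x ∧ ‖V v‖ ≤ X} ⊆ {v : ι → ℤ | (∀ i, |v i| ≤ (⌊X⌋₊ : ℕ)) ∧ v ∈ B x} := by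
      rintro v ⟨h1, h2⟩
      refine ⟨fun i => ?_, h1⟩
      have h3 := (hnorm v X).1 h2 i
      have h4 : (v i).natAbs ≤ ⌊X⌋₊ := Nat.le_floor (by
        rw [Nat.cast_natAbs]
        push_cast
        exact h3)
      rw [Int.abs_eq_natAbs]
      exact_mod_cast h4
    have hfin' : {v : ι → ℤ | (∀ i, |v i| ≤ (⌊X⌋₊ : ℕ)) ∧ v ∈ B x}.Finite :=
      (hfin ⌊X⌋₊).subset fun v hv => hv.1
    refine ⟨hfin'.subset hsub, ?_⟩
    have h1X : 1 ≤ X ^ ((Fintype.card ι : ℝ) - γ + ε) := Real.one_le_rpow hX (by linarith)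
    rcases le_or_gt H₀ ⌊X⌋₊ with h | h
    · have h3 : (({v | v ∈ B x ∧ ‖V v‖ ≤ X}.ncard : ℕ) : ℝ) ≤
          ((⌊X⌋₊ : ℕ) : ℝ) ^ ((Fintype.card ι : ℝ) - γ + ε) :=
        (Nat.cast_le.2 (Set.ncard_le_ncard hsub hfin')).trans (hH₀ _ h)
      refine h3.trans ?_
      have h4 : ((⌊X⌋₊ : ℕ) : ℝ) ^ ((Fintype.card ι : ℝ) - γ + ε) ≤
          X ^ ((Fintype.card ι : ℝ) - γ + ε) :=
        Real.rpow_le_rpow (Nat.cast_nonneg _) (Nat.floor_le hX0.le) (by linarith)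
      refine h4.trans ?_
      exact le_mul_of_one_le_left (by positivity) (le_max_left _ _)
    · have h3 : {v | v ∈ B x ∧ ‖V v‖ ≤ X} ⊆ {v : ι → ℤ | ∀ i, |v i| ≤ (H₀ : ℕ)} := by
        intro v hv i
        exact ((hsub hv).1 i).trans (by exact_mod_cast h.le)
      have h4 : (({v | v ∈ B x ∧ ‖V v‖ ≤ X}.ncard : ℕ) : ℝ) ≤
          (({v : ι → ℤ | ∀ i, |v i| ≤ (H₀ : ℕ)}.ncard : ℕ) : ℝ) :=
        Nat.cast_le.2 (Set.ncard_le_ncard h3 (hfin H₀))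
      refine h4.trans ((le_max_right 1 _).trans ?_)
      exact le_mul_of_one_le_right (by positivity) h1X
  choose E hE1 hE2 using hkey
  have hdim : dimH (⋃ x, E x) ≤ ENNReal.ofReal (((Fintype.card ι : ℝ) - γ + τ) / (1 - θ)) := by
    rw [dimH_iUnion]
    exact iSup_le hE1
  refine ⟨⋃ x, E x, hdim, fun hlt => ?_, fun u hu huE x c => ?_⟩
  · have hθ' : 0 < 1 - θ := by linarith
    have hQ0 : (0 : ℝ) < Fintype.card ι := by
      exact_mod_cast Fintype.card_pos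
    have h2 : ((Fintype.card ι : ℝ) - γ + τ) / (1 - θ) < Fintype.card ι := by
      rw [div_lt_iff₀ hθ']
      nlinarith
    have h3 : dimH (⋃ x, E x) < ((Fintype.card ι : ℕ) : ENNReal) := by
      refine hdim.trans_lt ?_
      have h4 : ((Fintype.card ι : ℕ) : ENNReal) = ENNReal.ofReal (Fintype.card ι : ℝ) := by
        rw [ENNReal.ofReal_natCast]
      rw [h4]
      exact (ENNReal.ofReal_lt_ofReal_iff hQ0).2 h2
    rw [← hausdorffMeasure_pi_real]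
    have h5 := hausdorffMeasure_of_dimH_lt (s := ⋃ x, E x) (d := ((Fintype.card ι : ℕ) : NNReal))
      (by simpa using h3)
    simpa using h5
  · obtain ⟨n₀, h2⟩ := hE2 x u hu (fun h => huE (Set.mem_iUnion.2 ⟨x, h⟩)) c
    refine ⟨n₀, fun n hn v hnear hvB => ?_⟩
    refine absurd (h2 n hn v hvB) (not_lt.2 ?_)
    rw [pi_norm_le_iff_of_nonempty]
    intro i
    exact hnear i

end Pool.Agent.Zk49
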