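import Pool.Agent.Zk49.ShB
import Pool.Agent.Results.MP_d03834_ag.EffectiveEveryField
import Pool.Agent.N388.EFW.Fam

/-!
# Helper file (helper49): uniform fat points outside the open pairs
-/

set_option autoImplicit false

namespace Pool.Agent.Zk49.Sh

open Pool.Agent.H932R3 (ExpDim)
open Pool.Agent.Results.MP_d03834_ag.EffectiveEveryField (Open generic)

/-- the expected dimension outside the open pairs -/
theorem generic_win {r m : ℕ} (hr : 10 ≤ r) (hm : 1 ≤ m) :
    ∃ F : MvPolynomial (Fin r × Fin 2) ℚ, F ≠ 0 ∧ ∀ P : Fin r → Fin 2 → ℂ,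
      MvPolynomial.aeval (fun ij : Fin r × Fin 2 => P ij.1 ij.2) F ≠ 0 →
      ∀ d : ℕ, ¬ Win r m d → ExpDim ℂ (fun _ => m) P d := by
  obtain ⟨F, hF, hF'⟩ := generic hr hm
  by_cases h11 : r = 11 ∨ r = 15
  · obtain ⟨F2, hF2, hF2'⟩ := Pool.Agent.N388.EFW.uniform3 (n := r)
      (by rcases h11 with h | h <;> simp [h]) m
    refine ⟨F * F2, mul_ne_zero hF hF2, fun P hP d hd => ?_⟩
    rw [map_mul] at hP
    by_cases hO : Open r m d
    · refine hF2' P (right_ne_zero_of_mul hP) d ?_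
      by_contra hcon
      push Not at hcon
      obtain ⟨h1, h2, h3⟩ := hcon
      have h27 : r ≠ 27 := by rcases h11 with h | h <;> rw [h] <;> norm_num
      have h4 : 3 ∣ d := by
        by_contra h4
        exact h27 (h1 h4)
      exact hd ⟨hO.1, hO.2.1, hO.2.2.1, fun _ => ⟨h4, h2 h4, h3 h4⟩⟩
    · exact hF' P (left_ne_zero_of_mul hP) d fun h => hO h.2
  · refine ⟨F, hF, fun P hP d hd => hF' P hP d fun h => hd ?_⟩
    exact ⟨h.2.1, h.2.2.1, h.2.2.2.1, fun h' => absurd h' h11⟩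

end Pool.Agent.Zk49.Sh
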