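import Mathlib

/-!
# Helper file (helper49): the pairs of a multiplicity and a degree left open for uniform fat points

`Win r m d`: the pairs which are left open by the starting results for `r` general points. We show that
for a given `r` the multiplicities (and the degrees) of these pairs are far from each other, or that
they do not form long runs.
-/

set_option autoImplicit false

namespace Pool.Agent.Zk49.Sh

/-- the pairs left open -/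
def Win (r m d : ℕ) : Prop :=
  ¬ (37 ≤ r ∨ r = 13 ∨ r = 21 ∨ IsSquare r) ∧
  √(r : ℝ) * (2 * m + 1) - min (√(r : ℝ) - 3) (2 / 3 + 9 / (4 * √(r : ℝ))) ≤ 2 * (d : ℝ) + 3 ∧
  2 * (d : ℝ) + 3 ≤ √(r : ℝ) * (2 * m + 1) + min (√(r : ℝ) - 3) (2 / 3 + 1 / (4 * √(r : ℝ))) ∧
  (r = 11 ∨ r = 15 → 3 ∣ d ∧ 3 * (√(r : ℝ) - 3) ≤ (√(r : ℝ) + 3) * (d - √(r : ℝ) * m) ∧
    2 * (d : ℝ) + 3 < √(r : ℝ) * (2 * m + 1))

/-- numerical data for `r` -/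
structure Dta (r : ℕ) (A a b : ℤ) : Prop where
  pos : 0 < A
  lo : (A : ℝ) ≤ 10 ^ 8 * √(r : ℝ)
  hi : 10 ^ 8 * √(r : ℝ) ≤ A + 1
  ha : 10 ^ 8 * min (√(r : ℝ) - 3) (2 / 3 + 9 / (4 * √(r : ℝ))) ≤ a
  hb : 10 ^ 8 * min (√(r : ℝ) - 3) (2 / 3 + 1 / (4 * √(r : ℝ))) ≤ b

lemma bnd {r : ℕ} {A : ℤ} (h0 : 0 < A) (h1 : A ^ 2 ≤ r * 10 ^ 16) (h2 : r * 10 ^ 16 ≤ (A + 1) ^ 2) :
    (A : ℝ) ≤ 10 ^ 8 * √(r : ℝ) ∧ 10 ^ 8 * √(r : ℝ) ≤ A + 1 := by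
  have hs : √(r : ℝ) ^ 2 = r := Real.sq_sqrt (Nat.cast_nonneg r)
  have hs0 : 0 ≤ √(r : ℝ) := Real.sqrt_nonneg _
  have h0' : (0 : ℝ) < A := by exact_mod_cast h0
  have h1' : (A : ℝ) ^ 2 ≤ r * 10 ^ 16 := by exact_mod_cast h1
  have h2' : (r : ℝ) * 10 ^ 16 ≤ (A + 1) ^ 2 := by exact_mod_cast h2
  constructor
  · by_contra hcon
    push Not at hcon
    nlinarith
  · by_contra hcon
    push Not at hcon
    nlinarith

/-- the data from the inequalities for integers; `a` and `b` bounded by the first terms -/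
lemma dta_ll {r : ℕ} {A a b : ℤ} (h0 : 0 < A) (h1 : A ^ 2 ≤ r * 10 ^ 16)
    (h2 : r * 10 ^ 16 ≤ (A + 1) ^ 2) (ha : A + 1 - 3 * 10 ^ 8 ≤ a) (hb : A + 1 - 3 * 10 ^ 8 ≤ b) :
    Dta r A a b := by
  obtain ⟨h3, h4⟩ := bnd h0 h1 h2
  have ha' : (A : ℝ) + 1 - 3 * 10 ^ 8 ≤ a := by exact_mod_cast ha
  have hb' : (A : ℝ) + 1 - 3 * 10 ^ 8 ≤ b := by exact_mod_cast hb
  refine ⟨h0, h3, h4, ?_, ?_⟩
  · have := min_le_left (√(r : ℝ) - 3) (2 / 3 + 9 / (4 * √(r : ℝ)))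
    linarith
  · have := min_le_left (√(r : ℝ) - 3) (2 / 3 + 1 / (4 * √(r : ℝ)))
    linarith

lemma frac_le {r : ℕ} {A b : ℤ} (c : ℕ) (h0 : 0 < A) (h3 : (A : ℝ) ≤ 10 ^ 8 * √(r : ℝ))
    (hb : 8 * 10 ^ 8 * A + 3 * c * 10 ^ 16 ≤ 12 * b * A) :
    10 ^ 8 * (2 / 3 + (c : ℝ) / (4 * √(r : ℝ))) ≤ b := by
  have h0' : (0 : ℝ) < A := by exact_mod_cast h0
  have hs : 0 < √(r : ℝ) := by nlinarith
  have hb' : 8 * 10 ^ 8 * (A : ℝ) + 3 * c * 10 ^ 16 ≤ 12 * b * A := by exact_mod_cast hb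
  have h4 : (c : ℝ) / (4 * √(r : ℝ)) ≤ c * 10 ^ 8 / (4 * A) := by
    rw [div_le_div_iff₀ (by positivity) (by positivity)]
    have : (0 : ℝ) ≤ c := Nat.cast_nonneg c
    nlinarith
  have h5 : 10 ^ 8 * (2 / 3 + (c : ℝ) * 10 ^ 8 / (4 * A)) ≤ b := by
    have h6 : 10 ^ 8 * (2 / 3 + (c : ℝ) * 10 ^ 8 / (4 * A)) =
        (8 * 10 ^ 8 * (A : ℝ) + 3 * c * 10 ^ 16) / (12 * A) := by
      field_simp
      ring
    rw [h6, div_le_iff₀ (by positivity)]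
    linarith
  refine le_trans ?_ h5
  have : (2 / 3 + (c : ℝ) / (4 * √(r : ℝ))) ≤ (2 / 3 + (c : ℝ) * 10 ^ 8 / (4 * A)) := by linarith
  exact mul_le_mul_of_nonneg_left this (by norm_num)

lemma dta_lr {r : ℕ} {A a b : ℤ} (h0 : 0 < A) (h1 : A ^ 2 ≤ r * 10 ^ 16)
    (h2 : r * 10 ^ 16 ≤ (A + 1) ^ 2) (ha : A + 1 - 3 * 10 ^ 8 ≤ a)
    (hb : 8 * 10 ^ 8 * A + 3 * 1 * 10 ^ 16 ≤ 12 * b * A) : Dta r A a b := by
  obtain ⟨h3, h4⟩ := bnd h0 h1 h2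
  have ha' : (A : ℝ) + 1 - 3 * 10 ^ 8 ≤ a := by exact_mod_cast ha
  refine ⟨h0, h3, h4, ?_, ?_⟩
  · have := min_le_left (√(r : ℝ) - 3) (2 / 3 + 9 / (4 * √(r : ℝ)))
    linarith
  · have h5 := frac_le (r := r) 1 h0 h3 (by exact_mod_cast hb)
    push_cast at h5
    refine le_trans ?_ h5
    exact mul_le_mul_of_nonneg_left (min_le_right _ _) (by norm_num)

lemma dta_rr {r : ℕ} {A a b : ℤ} (h0 : 0 < A) (h1 : A ^ 2 ≤ r * 10 ^ 16)
    (h2 : r * 10 ^ 16 ≤ (A + 1) ^ 2) (ha : 8 * 10 ^ 8 * A + 3 * 9 * 10 ^ 16 ≤ 12 * a * A)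
    (hb : 8 * 10 ^ 8 * A + 3 * 1 * 10 ^ 16 ≤ 12 * b * A) : Dta r A a b := by
  obtain ⟨h3, h4⟩ := bnd h0 h1 h2
  refine ⟨h0, h3, h4, ?_, ?_⟩
  · have h5 := frac_le (r := r) 9 h0 h3 (by exact_mod_cast ha)
    push_cast at h5
    refine le_trans ?_ h5
    exact mul_le_mul_of_nonneg_left (min_le_right _ _) (by norm_num)
  · have h5 := frac_le (r := r) 1 h0 h3 (by exact_mod_cast hb)
    push_cast at h5
    refine le_trans ?_ h5
    exact mul_le_mul_of_nonneg_left (min_le_right _ _) (by norm_num)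

/-- the checked list of translates of the free arc -/
def chk (A a b : ℤ) : ℤ → List (ℕ × ℤ) → Bool
  | x, [] => decide (b < x)
  | x, p :: L => decide (b + 2 * (A + 1) * p.1 - 2 * 10 ^ 8 * p.2 < x) &&
      chk A a b (2 * 10 ^ 8 - a + 2 * A * p.1 - 2 * 10 ^ 8 * p.2) L

lemma chk_sound {r : ℕ} {A a b : ℤ} (D : Dta r A a b) (L : List (ℕ × ℤ)) :
    ∀ x : ℤ, chk A a b x L = true → ∀ t : ℝ, (x : ℝ) ≤ 10 ^ 8 * t → 10 ^ 8 * t ≤ b →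
      ∃ p ∈ L, (b : ℝ) < 10 ^ 8 * (t - 2 * √(r : ℝ) * p.1 + 2 * p.2) ∧
        10 ^ 8 * (t - 2 * √(r : ℝ) * p.1 + 2 * p.2) < 2 * 10 ^ 8 - a := by
  induction L with
  | nil =>
    intro x hx t h1 h2
    simp only [chk, decide_eq_true_eq] at hx
    have : (b : ℝ) < x := by exact_mod_cast hx
    linarith
  | cons p L ih =>
    intro x hx t h1 h2
    simp only [chk, Bool.and_eq_true, decide_eq_true_eq] at hx
    obtain ⟨h3, h4⟩ := hx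
    have h3' : (b : ℝ) + 2 * (A + 1) * p.1 - 2 * 10 ^ 8 * p.2 < x := by exact_mod_cast h3
    have hp : (0 : ℝ) ≤ p.1 := Nat.cast_nonneg _
    have hlo := mul_le_mul_of_nonneg_right D.lo hp
    have hhi := mul_le_mul_of_nonneg_right D.hi hp
    rcases lt_or_ge (10 ^ 8 * t) ((2 * 10 ^ 8 - a + 2 * A * p.1 - 2 * 10 ^ 8 * p.2 : ℤ) : ℝ) with h5 | h5
    · refine ⟨p, List.mem_cons_self, ?_, ?_⟩
      · linarith
      · push_cast at h5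
        linarith
    · obtain ⟨q, hq, h6⟩ := ih _ h4 t h5 h2
      exact ⟨q, List.mem_cons_of_mem _ hq, h6⟩

lemma win_lo {r m d : ℕ} {A a b : ℤ} (D : Dta r A a b) (h : Win r m d) :
    -(a : ℝ) ≤ 10 ^ 8 * (2 * (d : ℝ) + 3 - √(r : ℝ) * (2 * m + 1)) := by
  have h1 := h.2.1
  have h2 := D.ha
  linarith

lemma win_hi {r m d : ℕ} {A a b : ℤ} (D : Dta r A a b) (h : Win r m d) :
    10 ^ 8 * (2 * (d : ℝ) + 3 - √(r : ℝ) * (2 * m + 1)) ≤ b := by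
  have h1 := h.2.2.1
  have h2 := D.hb
  linarith

/-- **runs of multiplicities** -/
theorem cover {r : ℕ} {A a b : ℤ} (D : Dta r A a b) (L : List (ℕ × ℤ))
    (hL : chk A a b (-a) L = true) {K : ℕ} (hK : ∀ p ∈ L, p.1 < K) (hK1 : 1 ≤ K) (m : ℕ) :
    ∃ k < K, ∀ d, ¬ Win r (m + k) d := by
  by_cases h0 : ∀ d, ¬ Win r m d
  · exact ⟨0, hK1, by simpa using h0⟩
  push Not at h0
  obtain ⟨d, hd⟩ := h0
  obtain ⟨p, hp, h1, h2⟩ := chk_sound D L (-a) hL (2 * (d : ℝ) + 3 - √(r : ℝ) * (2 * m + 1))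
    (by push_cast; exact win_lo D hd) (win_hi D hd)
  refine ⟨p.1, hK p hp, fun d' hd' => ?_⟩
  have h3 := win_lo D hd'
  have h4 := win_hi D hd'
  push_cast at h3 h4
  have h5 : ((d' : ℤ) - d - p.2 : ℤ) < 0 := by
    have : (((d' : ℤ) - d - p.2 : ℤ) : ℝ) < 0 := by
      push_cast
      nlinarith
    exact_mod_cast this
  have h6 : -1 < ((d' : ℤ) - d - p.2 : ℤ) := by
    have : (-1 : ℝ) < (((d' : ℤ) - d - p.2 : ℤ) : ℝ) := by
      push_cast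
      nlinarith
    exact_mod_cast this
  omega

/-! ## distances -/

lemma dist_lo {r m d m' d' : ℕ} {A a b : ℤ} (D : Dta r A a b) (h : Win r m d) (h' : Win r m' d') :
    2 * 10 ^ 8 * (((d' : ℝ) - d) - √(r : ℝ) * ((m' : ℝ) - m)) ≤ a + b ∧
    -((a : ℝ) + b) ≤ 2 * 10 ^ 8 * (((d' : ℝ) - d) - √(r : ℝ) * ((m' : ℝ) - m)) := by
  have h1 := win_lo D h
  have h2 := win_hi D h
  have h3 := win_lo D h'
  have h4 := win_hi D h'
  constructor <;> nlinarith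

/-- if the degree grows, then the multiplicity grows -/
lemma mult_lt {r m d m' d' : ℕ} {A a b : ℤ} (D : Dta r A a b) (hab : a + b < 2 * 10 ^ 8)
    (h : Win r m d) (h' : Win r m' d') (hd : d < d') : m < m' := by
  by_contra hcon
  push Not at hcon
  have h1 := (dist_lo D h h').1
  have h2 : (1 : ℝ) ≤ (d' : ℝ) - d := by
    have : (d : ℝ) + 1 ≤ d' := by exact_mod_cast hd
    linarith
  have h3 : (m' : ℝ) - m ≤ 0 := by
    have : (m' : ℝ) ≤ m := by exact_mod_cast hcon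
    linarith
  have h4 : √(r : ℝ) * ((m' : ℝ) - m) ≤ 0 := mul_nonpos_of_nonneg_of_nonpos (Real.sqrt_nonneg _) h3
  have h5 : ((a : ℝ) + b) < 2 * 10 ^ 8 := by exact_mod_cast hab
  nlinarith

/-- the degrees are far from each other -/
lemma deg_gap {r m d m' d' : ℕ} {A a b : ℤ} (D : Dta r A a b)
    (h : Win r m d) (h' : Win r m' d') {k g : ℕ} (hk : m + k ≤ m')
    (hg : a + b + 2 * 10 ^ 8 * (g : ℤ) < 2 * A * k + 2 * 10 ^ 8) : d + g ≤ d' := by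
  have h1 := (dist_lo D h h').2
  have h2 : (k : ℝ) ≤ (m' : ℝ) - m := by
    have : (m : ℝ) + k ≤ m' := by exact_mod_cast hk
    linarith
  have h3 : √(r : ℝ) * k ≤ √(r : ℝ) * ((m' : ℝ) - m) := mul_le_mul_of_nonneg_left h2 (Real.sqrt_nonneg _)
  have h4 : ((a : ℝ) + b) + 2 * 10 ^ 8 * g < 2 * A * k + 2 * 10 ^ 8 := by exact_mod_cast hg
  have h5 : (A : ℝ) * k ≤ 10 ^ 8 * √(r : ℝ) * k := mul_le_mul_of_nonneg_right D.lo (Nat.cast_nonneg k)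
  have h6 : (g : ℝ) < (d' : ℝ) - d + 1 := by nlinarith
  have h7 : (g : ℤ) < (d' : ℤ) - d + 1 := by exact_mod_cast h6
  omega

/-- the numbers `√r k`, `k₀ ≤ k < G`, are far from the multiples of `q` -/
def farB (A W q : ℤ) (k₀ G : ℕ) : Bool :=
  (List.range G).all fun k => decide (k < k₀) ||
    decide (q * 10 ^ 8 * (((A + 1) * k + W) / (q * 10 ^ 8)) < A * k - W)

lemma far {r : ℕ} {A a b W q : ℤ} (D : Dta r A a b) (hq : 0 < q) {k₀ G : ℕ}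
    (hB : farB A W q k₀ G = true) {k : ℕ} (hk0 : k₀ ≤ k) (hk : k < G) {e : ℤ} (he : q ∣ e)
    (h1 : 10 ^ 8 * ((e : ℝ) - √(r : ℝ) * k) ≤ W) (h2 : -(W : ℝ) ≤ 10 ^ 8 * ((e : ℝ) - √(r : ℝ) * k)) :
    False := by
  unfold farB at hB
  rw [List.all_eq_true] at hB
  have h3 := hB k (List.mem_range.2 hk)
  simp only [Bool.or_eq_true, decide_eq_true_eq] at h3
  have h4 := h3.resolve_left (not_lt.2 hk0)
  obtain ⟨x, rfl⟩ := he
  have hk' : (0 : ℝ) ≤ k := Nat.cast_nonneg k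
  have h5 : 10 ^ 8 * √(r : ℝ) * k ≤ (A + 1) * k := mul_le_mul_of_nonneg_right D.hi hk'
  have h6 : (A : ℝ) * k ≤ 10 ^ 8 * √(r : ℝ) * k := mul_le_mul_of_nonneg_right D.lo hk'
  have h7 : ((10 ^ 8 * (q * x) : ℤ) : ℝ) ≤ (((A + 1) * k + W : ℤ) : ℝ) := by
    push_cast at h1 ⊢
    linarith
  have h7' : 10 ^ 8 * (q * x) ≤ (A + 1) * k + W := by exact_mod_cast h7
  have h8 : ((A * k - W : ℤ) : ℝ) ≤ ((10 ^ 8 * (q * x) : ℤ) : ℝ) := by
    push_cast at h2 ⊢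
    linarith
  have h8' : A * k - W ≤ 10 ^ 8 * (q * x) := by exact_mod_cast h8
  have hq8 : 0 < q * 10 ^ 8 := by positivity
  have h9 : x ≤ ((A + 1) * k + W) / (q * 10 ^ 8) := by
    rw [Int.le_ediv_iff_mul_le hq8]
    linarith
  have h10 : q * 10 ^ 8 * x ≤ q * 10 ^ 8 * (((A + 1) * k + W) / (q * 10 ^ 8)) :=
    mul_le_mul_of_nonneg_left h9 hq8.le
  linarith

end Pool.Agent.Zk49.Sh
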