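import Pool.Agent.Zk49.ShA

/-!
# Helper file (helper49): tables for the open pairs
-/

set_option autoImplicit false

namespace Pool.Agent.Zk49.Sh

/-! ## the data -/

lemma d10 : Dta 10 316227766 16227767 16227767 := dta_ll (by norm_num) (by norm_num) (by norm_num) (by norm_num) (by norm_num)
lemma d11 : Dta 11 331662479 31662480 31662480 := dta_ll (by norm_num) (by norm_num) (by norm_num) (by norm_num) (by norm_num)
lemma d12 : Dta 12 346410161 46410162 46410162 := dta_ll (by norm_num) (by norm_num) (by norm_num) (by norm_num) (by norm_num)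
lemma d14 : Dta 14 374165738 74165739 73348198 := dta_lr (by norm_num) (by norm_num) (by norm_num) (by norm_num) (by norm_num)
lemma d15 : Dta 15 387298334 87298335 73121640 := dta_lr (by norm_num) (by norm_num) (by norm_num) (by norm_num) (by norm_num)
lemma d17 : Dta 17 412310562 112310563 72730058 := dta_lr (by norm_num) (by norm_num) (by norm_num) (by norm_num) (by norm_num)
lemma d18 : Dta 18 424264068 119699676 72559224 := dta_rr (by norm_num) (by norm_num) (by norm_num) (by norm_num) (by norm_num)
lemma d19 : Dta 19 435889894 118285207 72402061 := dta_rr (by norm_num) (by norm_num) (by norm_num) (by norm_num) (by norm_num)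
lemma d20 : Dta 20 447213595 116978197 72256837 := dta_rr (by norm_num) (by norm_num) (by norm_num) (by norm_num) (by norm_num)
lemma d22 : Dta 22 469041575 114636828 71996685 := dta_rr (by norm_num) (by norm_num) (by norm_num) (by norm_num) (by norm_num)
lemma d23 : Dta 23 479583152 113582410 71879528 := dta_rr (by norm_num) (by norm_num) (by norm_num) (by norm_num) (by norm_num)
lemma d24 : Dta 24 489897948 112594600 71769771 := dta_rr (by norm_num) (by norm_num) (by norm_num) (by norm_num) (by norm_num)
lemma d26 : Dta 26 509901951 110792798 71569571 := dta_rr (by norm_num) (by norm_num) (by norm_num) (by norm_num) (by norm_num)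
lemma d27 : Dta 27 519615242 109967937 71477919 := dta_rr (by norm_num) (by norm_num) (by norm_num) (by norm_num) (by norm_num)
lemma d28 : Dta 28 529150262 109187670 71391223 := dta_rr (by norm_num) (by norm_num) (by norm_num) (by norm_num) (by norm_num)
lemma d29 : Dta 29 538516480 108448118 71309051 := dta_rr (by norm_num) (by norm_num) (by norm_num) (by norm_num) (by norm_num)
lemma d30 : Dta 30 547722557 107745859 71231022 := dta_rr (by norm_num) (by norm_num) (by norm_num) (by norm_num) (by norm_num)
lemma d31 : Dta 31 556776436 107077860 71156800 := dta_rr (by norm_num) (by norm_num) (by norm_num) (by norm_num) (by norm_num)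
lemma d32 : Dta 32 565685424 106441424 71086085 := dta_rr (by norm_num) (by norm_num) (by norm_num) (by norm_num) (by norm_num)
lemma d33 : Dta 33 574456264 105834140 71018609 := dta_rr (by norm_num) (by norm_num) (by norm_num) (by norm_num) (by norm_num)
lemma d34 : Dta 34 583095189 105253849 70954132 := dta_rr (by norm_num) (by norm_num) (by norm_num) (by norm_num) (by norm_num)
lemma d35 : Dta 35 591607978 104698609 70892438 := dta_rr (by norm_num) (by norm_num) (by norm_num) (by norm_num) (by norm_num)

/-! ## neighbours -/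

/-- for `r = 10` and `r = 12` there are no open pairs with two neighbouring multiplicities -/
lemma not_succ {r m d d' : ℕ} (hr' : r ≤ 12) (h : Win r m d) (h' : Win r (m + 1) d') :
    False := by
  have hsq : ¬ IsSquare r := fun hc => h.1 (Or.inr (Or.inr (Or.inr hc)))
  have hs0 : 0 ≤ √(r : ℝ) := Real.sqrt_nonneg _
  have hs : √(r : ℝ) ^ 2 = r := Real.sq_sqrt (Nat.cast_nonneg r)
  have hr'' : (r : ℝ) ≤ 12 := by exact_mod_cast hr'
  have h35 : √(r : ℝ) < 3.5 := by nlinarith
  have h1 := h.2.1
  have h2 := h.2.2.1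
  have h3 := h'.2.1
  have h4 := h'.2.2.1
  have e1 := min_le_left (√(r : ℝ) - 3) (2 / 3 + 9 / (4 * √(r : ℝ)))
  have e2 := min_le_left (√(r : ℝ) - 3) (2 / 3 + 1 / (4 * √(r : ℝ)))
  push_cast at h3 h4
  have h5 : (d : ℝ) + 3 ≤ d' := by linarith
  have h6 : (d' : ℝ) < d + 4 := by linarith
  have h5' : d + 3 ≤ d' := by exact_mod_cast h5
  have h6' : d' < d + 4 := by exact_mod_cast h6
  have h7 : d' = d + 3 := by omega
  subst h7
  push_cast at h3
  have h8 : √(r : ℝ) * (2 * m + 2) = 2 * d + 6 := by linarith
  have hirr : Irrational √(r : ℝ) := irrational_sqrt_natCast_iff.2 hsq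
  apply hirr
  refine ⟨(2 * d + 6 : ℚ) / (2 * m + 2), ?_⟩
  push_cast
  rw [div_eq_iff (by positivity)]
  exact h8.symm

/-- the sharper window for `r = 11` and `r = 15` -/
lemma sharp {r m d : ℕ} {A a b c : ℤ} (D : Dta r A a b) (hr : r = 11 ∨ r = 15)
    (hc3 : c ≤ 3 * 10 ^ 8) (hcA : 10 ^ 8 * (9 * 10 ^ 8 + 3 * c) ≤ A * (3 * 10 ^ 8 - c))
    (h : Win r m d) : 3 ∣ d ∧ (c : ℝ) ≤ 10 ^ 8 * ((d : ℝ) - √(r : ℝ) * m) ∧
      2 * (10 ^ 8 * ((d : ℝ) - √(r : ℝ) * m)) < A + 1 - 3 * 10 ^ 8 := by
  obtain ⟨h1, h2, h3⟩ := h.2.2.2 hr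
  have hlo := D.lo
  have hhi := D.hi
  have hs0 : 0 ≤ √(r : ℝ) := Real.sqrt_nonneg _
  refine ⟨h1, ?_, by linarith⟩
  by_contra hcon
  push Not at hcon
  have hcA' : (10 : ℝ) ^ 8 * (9 * 10 ^ 8 + 3 * c) ≤ A * (3 * 10 ^ 8 - c) := by exact_mod_cast hcA
  have hc3' : (0 : ℝ) ≤ 3 * 10 ^ 8 - c := by
    have : (c : ℝ) ≤ 3 * 10 ^ 8 := by exact_mod_cast hc3
    linarith
  have h4 : (A : ℝ) * (3 * 10 ^ 8 - c) ≤ 10 ^ 8 * √(r : ℝ) * (3 * 10 ^ 8 - c) :=
    mul_le_mul_of_nonneg_right hlo hc3'
  have h5 : (√(r : ℝ) + 3) * (10 ^ 8 * ((d : ℝ) - √(r : ℝ) * m)) < (√(r : ℝ) + 3) * c :=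
    mul_lt_mul_of_pos_left hcon (by positivity)
  nlinarith

/-- the least distance of the multiplicities of two open pairs -/
def gapM (r : ℕ) : ℕ := if r = 10 then 6 else if r = 11 then 180 else if r = 12 then 2 else
  if r = 15 then 24 else 1

theorem gap {r m m' d d' : ℕ} (hr : 10 ≤ r) (h : Win r m d) (h' : Win r m' d') (hm : m < m') :
    m + gapM r ≤ m' := by
  obtain ⟨k, rfl⟩ := Nat.exists_eq_add_of_lt hm
  unfold gapM
  split_ifs with h10 h11 h12 h15
  · subst h10
    by_contra hcon
    rcases Nat.eq_zero_or_pos k with hk | hk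
    · subst hk
      exact not_succ (by norm_num) h h'
    · obtain ⟨e1, e2⟩ := dist_lo d10 h h'
      refine far (W := 16227767) d10 (q := 1) one_pos (k₀ := 2) (G := 6) (by decide +kernel) (k := k + 1)
        (by omega) (by omega) (e := (d' : ℤ) - d) (one_dvd _) ?_ ?_
      · push_cast at e1 ⊢
        linarith
      · push_cast at e2 ⊢
        linarith
  · subst h11
    by_contra hcon
    obtain ⟨⟨x, hx⟩, e1, e2⟩ := sharp (c := 15030000) d11 (Or.inl rfl) (by norm_num)
      (by norm_num) h
    obtain ⟨⟨x', hx'⟩, e3, e4⟩ := sharp (c := 15030000) d11 (Or.inl rfl) (by norm_num)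
      (by norm_num) h'
    refine far (W := 801241) d11 (q := 3) (by norm_num) (k₀ := 1) (G := 180) (by decide +kernel) (k := k + 1)
      (by omega) (by omega) (e := (d' : ℤ) - d) ⟨(x' : ℤ) - x, by rw [hx, hx']; push_cast; ring⟩ ?_ ?_
    · push_cast at e1 e2 e3 e4 ⊢
      linarith
    · push_cast at e1 e2 e3 e4 ⊢
      linarith
  · subst h12
    by_contra hcon
    have hk : k = 0 := by omega
    subst hk
    exact not_succ (by norm_num) h h'
  · subst h15
    by_contra hcon
    obtain ⟨⟨x, hx⟩, e1, e2⟩ := sharp (c := 38100000) d15 (Or.inr rfl) (by norm_num)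
      (by norm_num) h
    obtain ⟨⟨x', hx'⟩, e3, e4⟩ := sharp (c := 38100000) d15 (Or.inr rfl) (by norm_num)
      (by norm_num) h'
    refine far (W := 5549168) d15 (q := 3) (by norm_num) (k₀ := 1) (G := 24) (by decide +kernel) (k := k + 1)
      (by omega) (by omega) (e := (d' : ℤ) - d) ⟨(x' : ℤ) - x, by rw [hx, hx']; push_cast; ring⟩ ?_ ?_
    · push_cast at e1 e2 e3 e4 ⊢
      linarith
    · push_cast at e1 e2 e3 e4 ⊢
      linarith
  · omega

/-- the least distance of the degrees of two open pairs -/
def gapD (r : ℕ) : ℕ := if r = 10 then 19 else if r = 11 then 597 else if r = 12 then 7 else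
  if r = 15 then 93 else if r ≤ 24 then 4 else if r ≤ 34 then 5 else 6

theorem gap_deg {r m m' d d' : ℕ} (hr : 10 ≤ r) (h : Win r m d) (h' : Win r m' d') (hd : d < d') :
    d + gapD r ≤ d' := by
  have hr' : r ≤ 36 := by
    by_contra hcon
    exact h.1 (Or.inl (by omega))
  have key : ∀ {A a b : ℤ}, Dta r A a b → a + b < 2 * 10 ^ 8 →
      a + b + 2 * 10 ^ 8 * (gapD r : ℤ) < 2 * A * gapM r + 2 * 10 ^ 8 → d + gapD r ≤ d' :=
    fun D hab hg => deg_gap D h h' (gap hr h h' (mult_lt D hab h h' hd)) hg
  have h1 := h.1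
  push Not at h1
  interval_cases r
  · exact key d10 (by norm_num) (by norm_num [gapD, gapM])
  · exact key d11 (by norm_num) (by norm_num [gapD, gapM])
  · exact key d12 (by norm_num) (by norm_num [gapD, gapM])
  · exact absurd rfl h1.2.1
  · exact key d14 (by norm_num) (by norm_num [gapD, gapM])
  · exact key d15 (by norm_num) (by norm_num [gapD, gapM])
  · exact absurd ⟨4, rfl⟩ h1.2.2.2
  · exact key d17 (by norm_num) (by norm_num [gapD, gapM])
  · exact key d18 (by norm_num) (by norm_num [gapD, gapM])
  · exact key d19 (by norm_num) (by norm_num [gapD, gapM])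
  · exact key d20 (by norm_num) (by norm_num [gapD, gapM])
  · exact absurd rfl h1.2.2.1
  · exact key d22 (by norm_num) (by norm_num [gapD, gapM])
  · exact key d23 (by norm_num) (by norm_num [gapD, gapM])
  · exact key d24 (by norm_num) (by norm_num [gapD, gapM])
  · exact absurd ⟨5, rfl⟩ h1.2.2.2
  · exact key d26 (by norm_num) (by norm_num [gapD, gapM])
  · exact key d27 (by norm_num) (by norm_num [gapD, gapM])
  · exact key d28 (by norm_num) (by norm_num [gapD, gapM])
  · exact key d29 (by norm_num) (by norm_num [gapD, gapM])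
  · exact key d30 (by norm_num) (by norm_num [gapD, gapM])
  · exact key d31 (by norm_num) (by norm_num [gapD, gapM])
  · exact key d32 (by norm_num) (by norm_num [gapD, gapM])
  · exact key d33 (by norm_num) (by norm_num [gapD, gapM])
  · exact key d34 (by norm_num) (by norm_num [gapD, gapM])
  · exact key d35 (by norm_num) (by norm_num [gapD, gapM])
  · exact absurd ⟨6, rfl⟩ h1.2.2.2

/-- there is a multiplicity without open pairs among any `run r` consecutive multiplicities -/
def run (r : ℕ) : ℕ := ([(10, 2), (11, 2), (12, 2), (14, 4), (15, 2), (17, 41), (18, 33), (19, 39),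
  (20, 36), (22, 29), (23, 39), (24, 39), (26, 31), (27, 36), (28, 17), (29, 13), (30, 21), (31, 23),
  (32, 26), (33, 31), (34, 29), (35, 12)] : List (ℕ × ℕ)).lookup r |>.getD 1

theorem runs {r : ℕ} (hr : 10 ≤ r) (m : ℕ) : ∃ k < run r, ∀ d, ¬ Win r (m + k) d := by
  by_cases hC : 37 ≤ r ∨ r = 13 ∨ r = 21 ∨ IsSquare r
  · refine ⟨0, ?_, fun d hd => hd.1 hC⟩
    rw [Nat.pos_iff_ne_zero]
    intro h0
    unfold run at h0
    simp only [List.lookup] at h0
    revert h0
    by_cases h36 : 37 ≤ r
    · have hne : ∀ s : ℕ, s ≤ 36 → (r == s) = false := by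
        intro s hs
        rw [beq_eq_false_iff_ne]
        omega
      simp [hne]
    · intro h0
      interval_cases r <;> simp_all (config := { decide := true })
  · have hr' : r ≤ 36 := by
      by_contra hcon
      exact hC (Or.inl (by omega))
    have two : 2 ≤ gapM r → ∃ k < 2, ∀ d, ¬ Win r (m + k) d := by
      intro h2
      by_contra hcon
      push Not at hcon
      obtain ⟨d, hd⟩ := hcon 0 (by norm_num)
      obtain ⟨d', hd'⟩ := hcon 1 (by norm_num)
      have := gap hr hd hd' (by omega)
      omega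
    push Not at hC
    interval_cases r
    · exact two (by norm_num [gapM])
    · exact two (by norm_num [gapM])
    · exact two (by norm_num [gapM])
    · exact absurd rfl hC.2.1
    · exact cover d14 [(3, 12), (2, 8), (1, 4)] (by decide +kernel) (by decide +kernel) (by decide +kernel) m
    · exact two (by norm_num [gapM])
    · exact absurd ⟨4, rfl⟩ hC.2.2.2
    · exact cover d17 [(33, 137), (1, 5), (34, 141), (2, 9), (35, 145), (3, 13), (36, 149), (4, 17), (37, 153), (5, 21), (38, 157), (6, 25), (39, 161), (7, 29), (40, 165), (8, 33)] (by decide +kernel) (by decide +kernel) (by decide +kernel) m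
    · exact cover d18 [(29, 124), (25, 107), (21, 90), (17, 73), (13, 56), (9, 39), (5, 22), (1, 5), (30, 128), (26, 111), (22, 94), (18, 77), (14, 60), (10, 43), (6, 26), (2, 9), (31, 132), (27, 115), (23, 98), (19, 81), (15, 64), (11, 47), (7, 30), (3, 13), (32, 136), (28, 119), (24, 102), (20, 85), (16, 68), (12, 51), (8, 34), (4, 17)] (by decide +kernel) (by decide +kernel) (by decide +kernel) m
    · exact cover d19 [(14, 62), (28, 123), (3, 14), (17, 75), (31, 136), (6, 27), (20, 88), (34, 149), (9, 40), (23, 101), (37, 162), (12, 53), (26, 114), (1, 5), (15, 66), (29, 127), (4, 18), (18, 79), (32, 140), (7, 31), (21, 92), (35, 153), (10, 44), (24, 105), (38, 166), (13, 57), (27, 118), (2, 9), (16, 70), (30, 131), (5, 22), (19, 83), (33, 144), (8, 35), (22, 96), (36, 157), (11, 48), (25, 109)] (by decide +kernel) (by decide +kernel) (by decide +kernel) m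
    · exact cover d20 [(34, 153), (15, 68), (32, 144), (13, 59), (30, 135), (11, 50), (28, 126), (9, 41), (26, 117), (7, 32), (24, 108), (5, 23), (22, 99), (3, 14), (20, 90), (1, 5), (35, 157), (16, 72), (33, 148), (14, 63), (31, 139), (12, 54), (29, 130), (10, 45), (27, 121), (8, 36), (25, 112), (6, 27), (23, 103), (4, 18), (21, 94), (2, 9), (19, 85)] (by decide +kernel) (by decide +kernel) (by decide +kernel) m
    · exact absurd rfl hC.2.2.1
    · exact cover d22 [(16, 76), (3, 15), (19, 90), (6, 29), (22, 104), (9, 43), (25, 118), (12, 57), (28, 132), (2, 10), (18, 85), (5, 24), (21, 99), (8, 38), (24, 113), (11, 52), (27, 127), (1, 5), (17, 80), (4, 19), (20, 94), (7, 33), (23, 108), (10, 47), (26, 122)] (by decide +kernel) (by decide +kernel) (by decide +kernel) m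
    · exact cover d23 [(34, 164), (19, 92), (4, 20), (38, 183), (23, 111), (8, 39), (3, 15), (37, 178), (22, 106), (7, 34), (2, 10), (36, 173), (21, 101), (6, 29), (1, 5), (35, 168), (20, 96), (5, 24)] (by decide +kernel) (by decide +kernel) (by decide +kernel) m
    · exact cover d24 [(29, 143), (9, 45), (38, 187), (8, 40), (37, 182), (7, 35), (36, 177), (6, 30), (35, 172), (5, 25), (34, 167), (4, 20), (33, 162), (3, 15), (32, 157), (2, 10), (31, 152), (1, 5), (30, 147)] (by decide +kernel) (by decide +kernel) (by decide +kernel) m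
    · exact absurd ⟨5, rfl⟩ hC.2.2.2
    · exact cover d26 [(21, 108), (1, 6), (22, 113), (2, 11), (23, 118), (3, 16), (24, 123), (4, 21), (25, 128), (5, 26), (26, 133), (6, 31), (27, 138), (7, 36), (28, 143), (8, 41), (29, 148), (9, 46), (30, 153)] (by decide +kernel) (by decide +kernel) (by decide +kernel) m
    · exact cover d27 [(31, 162), (11, 58), (1, 6), (32, 167), (12, 63), (2, 11), (33, 172), (13, 68), (3, 16), (34, 177), (14, 73), (4, 21), (35, 182), (15, 78)] (by decide +kernel) (by decide +kernel) (by decide +kernel) m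
    · exact cover d28 [(14, 75), (4, 22), (11, 59), (1, 6), (15, 80), (5, 27), (12, 64), (2, 11), (16, 85), (6, 32), (13, 69), (3, 16), (10, 53)] (by decide +kernel) (by decide +kernel) (by decide +kernel) m
    · exact cover d29 [(8, 44), (3, 17), (11, 60), (6, 33), (1, 6), (9, 49), (4, 22), (12, 65), (7, 38), (2, 11), (10, 54), (5, 27)] (by decide +kernel) (by decide +kernel) (by decide +kernel) m
    · exact cover d30 [(19, 105), (15, 83), (11, 61), (7, 39), (3, 17), (1, 6), (20, 110), (16, 88), (12, 66), (8, 44), (4, 22)] (by decide +kernel) (by decide +kernel) (by decide +kernel) m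
    · exact cover d31 [(16, 90), (2, 12), (18, 101), (4, 23), (20, 112), (6, 34), (22, 123), (1, 6), (17, 95), (3, 17), (19, 106), (5, 28), (21, 117)] (by decide +kernel) (by decide +kernel) (by decide +kernel) m
    · exact cover d32 [(23, 131), (14, 80), (5, 29), (2, 12), (25, 142), (16, 91), (7, 40), (1, 6), (24, 136), (15, 85), (6, 34)] (by decide +kernel) (by decide +kernel) (by decide +kernel) m
    · exact cover d33 [(27, 156), (7, 41), (3, 18), (30, 173), (10, 58), (2, 12), (29, 167), (9, 52), (1, 6), (28, 161), (8, 46)] (by decide +kernel) (by decide +kernel) (by decide +kernel) m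
    · exact cover d34 [(23, 135), (5, 30), (28, 164), (4, 24), (27, 158), (3, 18), (26, 152), (2, 12), (25, 146), (1, 6), (24, 140)] (by decide +kernel) (by decide +kernel) (by decide +kernel) m
    · exact cover d35 [(11, 66), (10, 60), (9, 54), (8, 48), (7, 42), (6, 36), (5, 30), (4, 24), (3, 18), (2, 12), (1, 6)] (by decide +kernel) (by decide +kernel) (by decide +kernel) m
    · exact absurd ⟨6, rfl⟩ hC.2.2.2

/-! ## counting -/

/-- a set of numbers with mutual distances at least `g` in an interval of length `N` -/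
lemma card_gap {B : Finset ℕ} {N g : ℕ} (hg : 0 < g) (hB : ∀ x ∈ B, x < N)
    (h : ∀ x ∈ B, ∀ y ∈ B, x < y → x + g ≤ y) : B.card ≤ (N + g - 1) / g := by
  have h1 : B.card ≤ (Finset.range ((N + g - 1) / g)).card := by
    refine Finset.card_le_card_of_injOn (fun x => x / g) ?_ ?_
    · intro x hx
      have hx' := hB x hx
      rw [Finset.mem_coe, Finset.mem_range]
      show x / g < (N + g - 1) / g
      have h2 : x / g + 1 ≤ (N + g - 1) / g := by
        rw [Nat.le_div_iff_mul_le hg, Nat.add_mul, one_mul]
        have := Nat.div_mul_le_self x g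
        omega
      omega
    · intro x hx y hy hxy
      have hxy' : x / g = y / g := hxy
      by_contra hne
      have e1 := Nat.div_add_mod x g
      have e2 := Nat.div_add_mod y g
      have e3 := Nat.mod_lt x hg
      have e4 := Nat.mod_lt y hg
      rw [hxy'] at e1
      rcases Nat.lt_or_gt_of_ne hne with hlt | hlt
      · have := h x hx y hy hlt
        omega
      · have := h y hy x hx hlt
        omega
  rwa [Finset.card_range] at h1

/-- finitely many properties, each of which holds only at points with distances at least `g i`: none of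
them holds at some point of an interval of length `N` -/
lemma exists_none {ι : Type} (s : Finset ι) (P : ι → ℕ → Prop) (g : ι → ℕ) (hg : ∀ i ∈ s, 0 < g i)
    (hP : ∀ i ∈ s, ∀ x y, P i x → P i y → x < y → x + g i ≤ y) (N : ℕ)
    (hN : ∑ i ∈ s, (N + g i - 1) / g i < N) : ∃ k < N, ∀ i ∈ s, ¬ P i k := by
  classical
  by_contra hcon
  push Not at hcon
  have h1 : Finset.range N ⊆ s.biUnion fun i => (Finset.range N).filter (P i) := by
    intro k hk
    obtain ⟨i, hi, hik⟩ := hcon k (Finset.mem_range.1 hk)
    rw [Finset.mem_biUnion]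
    exact ⟨i, hi, Finset.mem_filter.2 ⟨hk, hik⟩⟩
  have h2 := (Finset.card_le_card h1).trans Finset.card_biUnion_le
  rw [Finset.card_range] at h2
  have h3 : ∑ i ∈ s, ((Finset.range N).filter (P i)).card ≤ ∑ i ∈ s, (N + g i - 1) / g i := by
    refine Finset.sum_le_sum fun i hi => card_gap (hg i hi) (fun x hx => ?_) fun x hx y hy hxy => ?_
    · exact Finset.mem_range.1 (Finset.mem_filter.1 hx).1
    · exact hP i hi x y (Finset.mem_filter.1 hx).2 (Finset.mem_filter.1 hy).2 hxy
  omega

/-- the open numbers of points up to `18` -/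
lemma le_cases {n : ℕ} (hn : 10 ≤ n) (h : ¬ (37 ≤ n ∨ n = 13 ∨ n = 21 ∨ IsSquare n)) (h18 : n ≤ 18) :
    n ∈ ({10, 11, 12, 14, 15, 17, 18} : Finset ℕ) := by
  push Not at h
  have h16 : n ≠ 16 := by
    rintro rfl
    exact h.2.2.2 ⟨4, rfl⟩
  have h13 := h.2.1
  simp only [Finset.mem_insert, Finset.mem_singleton]
  omega

end Pool.Agent.Zk49.Sh
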